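import Mathlib

set_option autoImplicit false

/-! Random shifts: some choice of the shifts makes every labelling as bad as a random one. -/

namespace Pool.Agent.Q226.UGL

open Finset

theorem moment {E P : Type} [Fintype E] [DecidableEq E] [Fintype P] [DecidableEq P]
    (E0 : Finset E) (s : E → P) (t : ℝ) :
    ∑ g : E → P, t ^ (E0.filter fun e => g e = s e).card =
      ((Fintype.card P : ℝ) - 1 + t) ^ E0.card * (Fintype.card P : ℝ) ^ (Fintype.card E - E0.card) := by
  have h1 : ∀ g : E → P, t ^ (E0.filter fun e => g e = s e).card =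
      ∏ e, (if e ∈ E0 ∧ g e = s e then t else 1) := by
    intro g
    rw [Finset.prod_ite, Finset.prod_const, Finset.prod_const, one_pow, mul_one]
    congr 2
    ext e
    simp
  have h2 : ∀ e : E, ∑ x : P, (if e ∈ E0 ∧ x = s e then t else 1) =
      if e ∈ E0 then (Fintype.card P : ℝ) - 1 + t else Fintype.card P := by
    intro e
    by_cases he : e ∈ E0
    · simp only [he, true_and, if_true]
      have h3 : ∀ x : P, (if x = s e then t else 1) = 1 + if x = s e then t - 1 else 0 := by
        intro x
        split_ifs <;> ring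
      rw [Finset.sum_congr rfl fun x _ => h3 x, Finset.sum_add_distrib, Finset.sum_const,
        Finset.card_univ, nsmul_eq_mul, mul_one, Finset.sum_ite_eq' univ (s e)]
      simp
      ring
    · simp [he]
  have h3 := Finset.prod_univ_sum (fun _ : E => (univ : Finset P))
    (fun e x => if e ∈ E0 ∧ x = s e then t else 1)
  rw [Fintype.piFinset_univ] at h3
  calc ∑ g : E → P, t ^ (E0.filter fun e => g e = s e).card
      = ∑ g : E → P, ∏ e, (if e ∈ E0 ∧ g e = s e then t else 1) :=
        Finset.sum_congr rfl fun g _ => h1 g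
    _ = ∏ e, ∑ x : P, (if e ∈ E0 ∧ x = s e then t else 1) := h3.symm
    _ = ∏ e, (if e ∈ E0 then (Fintype.card P : ℝ) - 1 + t else Fintype.card P) :=
        Finset.prod_congr rfl fun e _ => h2 e
    _ = _ := by
        rw [Finset.prod_ite, Finset.prod_const, Finset.prod_const]
        congr 2
        · congr 1
          ext e
          simp
        · have : (univ.filter fun e => e ∉ E0) = E0ᶜ := by ext; simp
          rw [this, card_compl]

/-- the union bound -/
theorem exists_good {E P Λ : Type} [Fintype E] [DecidableEq E] [Fintype P] [DecidableEq P]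
    [Nonempty P] [Fintype Λ] (E0 : Finset E) (s : Λ → E → P) (t δ : ℝ) (ht : 1 ≤ t)
    (h : (Fintype.card Λ : ℝ) *
      (((Fintype.card P : ℝ) - 1 + t) / (Fintype.card P * t ^ δ)) ^ E0.card < 1) :
    ∃ g : E → P, ∀ l : Λ, ((E0.filter fun e => g e = s l e).card : ℝ) ≤ δ * E0.card := by
  by_contra hcon
  push Not at hcon
  have hP : (0 : ℝ) < Fintype.card P := by exact_mod_cast Fintype.card_pos
  have ht0 : 0 < t := by linarith
  have htd : 0 < t ^ δ := Real.rpow_pos_of_pos ht0 δ
  have h1 : ∀ g : E → P, t ^ (δ * E0.card) ≤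
      ∑ l : Λ, t ^ (E0.filter fun e => g e = s l e).card := by
    intro g
    obtain ⟨l, hl⟩ := hcon g
    have h2 : t ^ (δ * E0.card) ≤ t ^ (E0.filter fun e => g e = s l e).card := by
      rw [← Real.rpow_natCast]
      exact Real.rpow_le_rpow_of_exponent_le ht hl.le
    refine h2.trans ?_
    exact Finset.single_le_sum (f := fun l => t ^ (E0.filter fun e => g e = s l e).card)
      (fun l _ => by positivity) (Finset.mem_univ l)
  have h2 : (Fintype.card P : ℝ) ^ Fintype.card E * t ^ (δ * E0.card) ≤
      Fintype.card Λ * (((Fintype.card P : ℝ) - 1 + t) ^ E0.card *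
        (Fintype.card P : ℝ) ^ (Fintype.card E - E0.card)) := by
    calc (Fintype.card P : ℝ) ^ Fintype.card E * t ^ (δ * E0.card)
        = ∑ _g : E → P, t ^ (δ * E0.card) := by
          rw [Finset.sum_const, Finset.card_univ, Fintype.card_fun, nsmul_eq_mul]
          push_cast
          rfl
      _ ≤ ∑ g : E → P, ∑ l : Λ, t ^ (E0.filter fun e => g e = s l e).card :=
          Finset.sum_le_sum fun g _ => h1 g
      _ = ∑ l : Λ, ∑ g : E → P, t ^ (E0.filter fun e => g e = s l e).card := Finset.sum_comm
      _ = _ := by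
          rw [Finset.sum_congr rfl fun l _ => moment E0 (s l) t, Finset.sum_const,
            Finset.card_univ, nsmul_eq_mul]
  have hE : E0.card ≤ Fintype.card E := Finset.card_le_univ _
  have h3 : (Fintype.card P : ℝ) ^ Fintype.card E =
      (Fintype.card P : ℝ) ^ E0.card * (Fintype.card P : ℝ) ^ (Fintype.card E - E0.card) := by
    rw [← pow_add, Nat.add_sub_cancel' hE]
  have h4 : t ^ (δ * E0.card) = (t ^ δ) ^ E0.card := by
    rw [Real.rpow_mul ht0.le, Real.rpow_natCast]
  rw [h3, h4] at h2
  have h5 : (0 : ℝ) < (Fintype.card P : ℝ) ^ (Fintype.card E - E0.card) := by positivity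
  have h6 : (Fintype.card P : ℝ) ^ E0.card * (t ^ δ) ^ E0.card ≤
      Fintype.card Λ * ((Fintype.card P : ℝ) - 1 + t) ^ E0.card := by
    have h7 : ((Fintype.card P : ℝ) ^ E0.card * (t ^ δ) ^ E0.card) *
        (Fintype.card P : ℝ) ^ (Fintype.card E - E0.card) ≤
        (Fintype.card Λ * ((Fintype.card P : ℝ) - 1 + t) ^ E0.card) *
        (Fintype.card P : ℝ) ^ (Fintype.card E - E0.card) := by
      calc _ = (Fintype.card P : ℝ) ^ E0.card * (Fintype.card P : ℝ) ^
            (Fintype.card E - E0.card) * (t ^ δ) ^ E0.card := by ring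
        _ ≤ _ := h2
        _ = _ := by ring
    exact le_of_mul_le_mul_right h7 h5
  rw [div_pow, mul_pow, ← mul_div_assoc, div_lt_one (by positivity)] at h
  linarith

end Pool.Agent.Q226.UGL
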