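import Pool.Agent.Q226.UGL.Cover
import Pool.Agent.Q226.UGL.Count
import Pool.Agent.W906.MU.Final

set_option autoImplicit false

/-! The lower bound for local search on unique games with value 1. -/

namespace Pool.Agent.Q226.UGL

open Finset
open Pool.Agent.TH912.LG
open Pool.Agent.TH912.LS (ball mem_ball ball_self ball_symm ball_trans ball_mono ball_adj dc)
open Pool.Agent.W179.Erdos (FCyc)

section counts

variable {U : Type} [Fintype U] {p : ℕ} [NeZero p] (G : SimpleGraph U) (g : U × U → ZMod p)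

/-- the constraints of the cover, as a function of an edge of the base and a sheet -/
def edge (e : (U × U) × ZMod p) : ((U × Bool) × ZMod p) × ((U × Bool) × ZMod p) :=
  (((e.1.1, true), e.2), ((e.1.2, false), e.2 + g e.1))

omit [Fintype U] [NeZero p] in
theorem edge_inj : Function.Injective (edge g) := by
  rintro ⟨⟨u, v⟩, x⟩ ⟨⟨u', v'⟩, x'⟩ h
  simp only [edge, Prod.mk.injEq, and_true] at h
  obtain ⟨⟨rfl, rfl⟩, rfl, _⟩ := h
  rfl

open Classical in
theorem numCon_cgu :
    numCon (cgu G g) = (univ.filter fun e : U × U => G.Adj e.1 e.2).card * p := by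
  have h1 : {e : ((U × Bool) × ZMod p) × ((U × Bool) × ZMod p) | (cgu G g).con e.1 e.2 ≠ none} =
      edge g '' (((univ.filter fun e : U × U => G.Adj e.1 e.2) ×ˢ (univ : Finset (ZMod p)) :
        Finset ((U × U) × ZMod p)) : Set ((U × U) × ZMod p)) := by
    ext ⟨x, y⟩
    rw [Set.mem_ofPred_eq, con_ne]
    constructor
    · rintro ⟨h1, h2, h3, h4⟩
      dsimp only at h1 h2 h3 h4
      refine ⟨((x.1.1, y.1.1), x.2), ?_, ?_⟩
      · simp [h3]
      · simp only [edge]
        ext <;> simp [h1, h2, h4]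
    · rintro ⟨⟨e, z⟩, h1, h2⟩
      simp only [coe_product, Set.mem_prod, mem_coe, mem_filter, mem_univ, true_and,
        and_true] at h1
      simp only [edge, Prod.mk.injEq] at h2
      obtain ⟨rfl, rfl⟩ := h2
      exact ⟨rfl, rfl, h1, rfl⟩
  unfold numCon
  rw [h1, Set.ncard_image_of_injective _ (edge_inj g), Set.ncard_coe_finset, card_product,
    card_univ, ZMod.card]

open Classical in
theorem numSat_cgu (L : (U × Bool) × ZMod p → ZMod p) (L0 : U × Bool → ZMod p)
    (hL : ∀ x, L x = L0 x.1) :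
    numSat (cgu G g) L = ((univ.filter fun e : U × U => G.Adj e.1 e.2).filter fun e =>
      L0 (e.1, true) + g e = L0 (e.2, false)).card * p := by
  have h1 : {e : ((U × Bool) × ZMod p) × ((U × Bool) × ZMod p) |
      ∃ π, (cgu G g).con e.1 e.2 = some π ∧ π (L e.1) = L e.2} =
      edge g '' ((((univ.filter fun e : U × U => G.Adj e.1 e.2).filter fun e =>
        L0 (e.1, true) + g e = L0 (e.2, false)) ×ˢ (univ : Finset (ZMod p)) :
        Finset ((U × U) × ZMod p)) : Set ((U × U) × ZMod p)) := by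
    ext ⟨x, y⟩
    rw [Set.mem_ofPred_eq]
    constructor
    · rintro ⟨π, h0, h5⟩
      rw [con_some] at h0
      obtain ⟨⟨h1, h2, h3, h4⟩, rfl⟩ := h0
      simp only at h1 h2 h3 h4 h5
      rw [hL, hL] at h5
      refine ⟨((x.1.1, y.1.1), x.2), ?_, ?_⟩
      · simp only [coe_product, Set.mem_prod, mem_coe, mem_filter, mem_univ, true_and, and_true]
        refine ⟨h3, ?_⟩
        have e1 : (x.1.1, true) = x.1 := Prod.ext rfl h1.symm
        have e2 : (y.1.1, false) = y.1 := Prod.ext rfl h2.symm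
        rw [e1, e2]
        exact h5
      · simp only [edge]
        ext <;> simp [h1, h2, h4]
    · rintro ⟨⟨e, z⟩, h1, h2⟩
      simp only [coe_product, Set.mem_prod, mem_coe, mem_filter, mem_univ, true_and,
        and_true] at h1
      simp only [edge, Prod.mk.injEq] at h2
      obtain ⟨rfl, rfl⟩ := h2
      refine ⟨fun a => a + g e, ?_, ?_⟩
      · rw [con_some]
        exact ⟨⟨rfl, rfl, h1.1, rfl⟩, rfl⟩
      · rw [hL, hL]
        exact h1.2
  unfold numSat
  rw [h1, Set.ncard_image_of_injective _ (edge_inj g), Set.ncard_coe_finset, card_product,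
    card_univ, ZMod.card]

end counts

theorem lower (p : ℕ) (hp0 : 1 ≤ p) (δ : ℝ) (hδ : 1 / (p : ℝ) < δ) :
    ∃ (Δ : ℕ) (c : ℝ), 0 < c ∧
    ∀ N : ℕ, ∃ (V : Type) (_ : Fintype V) (X : Game (ZMod p) V),
      N ≤ Fintype.card V ∧ Unique X ∧ Satisfiable X ∧ 0 < numCon X ∧
      (∀ v, (X.gr.neighborSet v).ncard ≤ Δ) ∧
      ∀ (S : Type) [Finite S] (lab : Bool → S → ZMod p) (r m t : ℕ) (F : LocalCost (ZMod p) S r)
        (start : V → S),
        (m * (t + r + 1) : ℝ) ≤ c * Real.log (Fintype.card V) →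
        (∀ φ : V ≃ V, IsAut X φ → ∀ v, start (φ v) = start v) →
        ∃ σ : V → S, Relation.ReflTransGen (Step F m t X) start σ ∧
          (∀ σ', ¬ Step F m t X σ σ') ∧
          (numSat X (fun v => lab (X.side v) (σ v)) : ℝ) ≤ δ * numCon X := by
  classical
  obtain ⟨t0, D0, ht0, hD0, hval⟩ := Pool.Agent.W906.MU.exists_tD p hp0 δ hδ
  obtain ⟨d, hd⟩ : ∃ d : ℕ, d = 2 * D0 := ⟨_, rfl⟩
  obtain ⟨Δ, hΔ⟩ : ∃ Δ : ℕ, Δ = 32 * (2 * (4 * d) * (8 * (4 * d) + 1)) := ⟨_, rfl⟩
  have : NeZero p := ⟨by omega⟩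
  have hpR : (1 : ℝ) ≤ p := by exact_mod_cast hp0
  have hδ0 : 0 < δ := lt_trans (by positivity) hδ
  obtain ⟨D, hD⟩ : ∃ D : ℝ, D = (2 * (4 * d : ℕ) * (8 * (4 * d : ℕ) + 1) : ℝ) := ⟨_, rfl⟩
  have hD1 : 1 ≤ D := by
    rw [hD]
    have : (1 : ℝ) ≤ ((4 * d : ℕ) : ℝ) := by
      have : 1 ≤ 4 * d := by omega
      exact_mod_cast this
    nlinarith
  have hlogD : 0 ≤ Real.log D := Real.log_nonneg hD1
  have hlogp : 0 < Real.log (2 * p) := by
    apply Real.log_pos
    linarith
  obtain ⟨C1, hC1⟩ : ∃ C1 : ℝ, C1 = Real.log (2 * p) + 5 * Real.log D := ⟨_, rfl⟩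
  have hC1pos : 0 < C1 := by rw [hC1]; positivity
  refine ⟨Δ, 1 / (4 * C1), by positivity, ?_⟩
  intro N
  obtain ⟨g0, hg0N, hg01⟩ : ∃ g0 : ℕ, N ≤ g0 ∧ 1 ≤ g0 :=
    ⟨max N 1, le_max_left _ _, le_max_right _ _⟩
  obtain ⟨U, _, G, h1, h2, h3, h4, h5⟩ := base_edges d g0 (by omega)
  rw [← hD] at h2
  rw [← hΔ] at h3
  obtain ⟨n, hn⟩ : ∃ n : ℕ, n = Fintype.card U := ⟨_, rfl⟩
  rw [← hn] at h1 h2 h5
  have hn1 : 1 ≤ n := by omega
  obtain ⟨M, hM⟩ : ∃ M : ℕ, M = (univ.filter fun e : U × U => G.Adj e.1 e.2).card := ⟨_, rfl⟩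
  rw [← hM] at h5
  have hMn : n * D0 ≤ M := by
    rw [hd] at h5
    have : 2 * (n * D0) ≤ 2 * M := by
      calc 2 * (n * D0) = 2 * D0 * n := by ring
        _ ≤ 2 * M := h5
    omega
  -- the ratio
  set ρ : ℝ := ((p : ℝ) - 1 + t0) / (p * t0 ^ δ) with hρ
  have ht00 : 0 < t0 := by linarith
  have hρ0 : 0 ≤ ρ := by
    rw [hρ]
    apply div_nonneg
    · linarith
    · positivity
  have hρ1 : ρ ≤ 1 := by
    by_contra hcon
    push Not at hcon
    have h6 := hval 1 le_rfl
    have h7 : (1 : ℝ) ≤ (p : ℝ) ^ (1 + 1) := one_le_pow₀ hpR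
    have h8 : (1 : ℝ) ≤ ρ ^ (1 * D0) := one_le_pow₀ hcon.le
    nlinarith
  -- the shifts
  let tL : (U × Bool → ZMod p) → U × U → ZMod p := fun L e =>
    L (e.2, false) - L (e.1, true)
  have hcardL : (Fintype.card (U × Bool → ZMod p) : ℝ) = (p : ℝ) ^ (n + n) := by
    rw [Fintype.card_fun, Fintype.card_prod, Fintype.card_bool, ZMod.card, ← hn]
    push_cast
    congr 1
    ring
  obtain ⟨g, hg⟩ := exists_good (P := ZMod p) (univ.filter fun e : U × U => G.Adj e.1 e.2) tL
    t0 δ ht0 (by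
    rw [hcardL, ZMod.card, ← hM, ← hρ]
    have h6 := hval n hn1
    have h7 : ρ ^ M ≤ ρ ^ (n * D0) := pow_le_pow_of_le_one hρ0 hρ1 hMn
    have h8 : (0 : ℝ) ≤ (p : ℝ) ^ (n + n) := by positivity
    have h9 := mul_le_mul_of_nonneg_left h7 h8
    linarith)
  -- the game
  have hV : Fintype.card ((U × Bool) × ZMod p) = 2 * n * p := by
    rw [Fintype.card_prod, Fintype.card_prod, Fintype.card_bool, ZMod.card, ← hn]
    ring
  refine ⟨(U × Bool) × ZMod p, inferInstance, cgu G g, ?_, cgu_unique G g,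
    cgu_satisfiable G g, ?_, cgu_degree G g h3, ?_⟩
  · rw [hV]
    have : 2 * n * 1 ≤ 2 * n * p := Nat.mul_le_mul_left _ hp0
    omega
  · rw [numCon_cgu, ← hM]
    refine Nat.mul_pos ?_ hp0
    exact lt_of_lt_of_le (Nat.mul_pos hn1 hD0) hMn
  · intro S _ lab r m t F start hbd hsym
    have hL : m * (2 * t + 2 * r + 1) ≤ g0 := by
      rw [hV] at hbd
      have hnpos : (0 : ℝ) < n := by exact_mod_cast hn1
      have hppos : (0 : ℝ) < p := by exact_mod_cast hp0
      have e1 : Real.log ((2 * n * p : ℕ) : ℝ) = Real.log (2 * p) + Real.log n := by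
        rw [← Real.log_mul (by positivity) (by positivity)]
        congr 1
        push_cast
        ring
      have e2 : Real.log n ≤ (2 * (g0 : ℕ) + 5) * Real.log D := by
        have := Real.log_le_log hnpos h2
        rw [Real.log_pow] at this
        push_cast at this
        exact this
      have e3 : Real.log ((2 * n * p : ℕ) : ℝ) ≤ ((g0 : ℕ) + 1) * C1 := by
        rw [e1, hC1]
        have : (0 : ℝ) ≤ ((g0 : ℕ) : ℝ) := by positivity
        nlinarith
      have e4 : (m * (t + r + 1) : ℝ) ≤ ((g0 : ℕ) + 1) / 4 := by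
        refine hbd.trans ?_
        calc 1 / (4 * C1) * Real.log ((2 * n * p : ℕ) : ℝ)
            ≤ 1 / (4 * C1) * (((g0 : ℕ) + 1) * C1) := by gcongr
          _ = ((g0 : ℕ) + 1) / 4 := by field_simp
      have e5 : (4 * (m * (t + r + 1)) : ℝ) ≤ (g0 : ℕ) + 1 := by linarith
      have e6 : 4 * (m * (t + r + 1)) ≤ g0 + 1 := by exact_mod_cast e5
      have e7 : m * (2 * t + 2 * r + 1) ≤ 2 * (m * (t + r + 1)) := by nlinarith
      omega
    have hfar := cgu_far G g (L := g0) h4
    have hstart : ∀ (a : ZMod p) x, start (x.1, x.2 + a) = start x := by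
      intro a x
      let φ : ((U × Bool) × ZMod p) ≃ ((U × Bool) × ZMod p) :=
        ⟨fun x => (x.1, x.2 + a), fun x => (x.1, x.2 - a), fun x => by simp, fun x => by simp⟩
      exact hsym φ ⟨fun v => hfar.hside a v, fun u v => hfar.hcon a u v⟩ x
    obtain ⟨σ, hinv, hrun, hstuck⟩ := hfar.run F hL start hstart
    refine ⟨σ, hrun, hstuck, ?_⟩
    have hσ : ∀ s x, σ (s, x) = σ (s, 0) := by
      intro s x
      have := hinv x (s, 0)
      simpa using this
    let L0 : U × Bool → ZMod p := fun s => lab s.2 (σ (s, 0))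
    rw [numCon_cgu, numSat_cgu G g _ L0 (by
      rintro ⟨s, x⟩
      show lab s.2 (σ (s, x)) = lab s.2 (σ (s, 0))
      rw [hσ])]
    have h6 : (((univ.filter fun e : U × U => G.Adj e.1 e.2).filter fun e =>
        L0 (e.1, true) + g e = L0 (e.2, false)).card : ℝ) ≤ δ * M := by
      refine le_trans ?_ ((hg L0).trans (le_of_eq (by rw [← hM])))
      have h7 : ((univ.filter fun e : U × U => G.Adj e.1 e.2).filter fun e =>
          L0 (e.1, true) + g e = L0 (e.2, false)).card ≤
          ((univ.filter fun e : U × U => G.Adj e.1 e.2).filter fun e => g e = tL L0 e).card := by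
        refine card_le_card ?_
        intro e he
        rw [mem_filter] at he ⊢
        refine ⟨he.1, ?_⟩
        show g e = L0 (e.2, false) - L0 (e.1, true)
        rw [← he.2]
        ring
      exact_mod_cast h7
    rw [← hM]
    push_cast
    rw [← mul_assoc]
    exact mul_le_mul_of_nonneg_right h6 (Nat.cast_nonneg _)

end Pool.Agent.Q226.UGL
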